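import Pool.Agent.K4H30.SW.Chain

/-!
# MP_b2be16_co, Q1: `{45123, 45213}` and `{12345, 12354}` are Wilf-equivalent

`|Av_n(45123, 45213)| = |Av_n(12345, 12354)|` for every `n`.

Outline of the proof.  Let `T` be a set of patterns (of a fixed length).  For a permutation `π` let
`F = F_T(π)` be the set of the cells `(i, j)` with an occurrence of a pattern of `T` strictly to
their north-east.  `F` is closed under moving down and to the left, and it does not change if the
rooks `(i, π i)` that lie in `F` are moved inside `F` (`Glob.lean`).  The rearrangements of the rooks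
inside `F` are built row by row from the top: if the row `r` has `a` available columns, the rook of
row `r` can be put into any of them, and then it has `x` rooks to its south-west and `a - 1 - x`
rooks to its south-east in columns `c` with `(c, r) ∈ F`, where `x = 0, …, a - 1`.  So there are as
many rearrangements in which every rook has fewer than `k` rooks to its south-west as there are
with fewer than `k` rooks to its south-east (inside `F`): both numbers are `∏_r min(k, a_r)`
(`Main.lean`).  Summing over the boards (`glob`): for all `T`, `k`, `n`

`|Av_n((1 ⊖ S_k) ⊕ T)| = |Av_n((S_k ⊕ 1) ⊕ T)|`.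

With `k = 2`, `T = {21}`: `|Av_n(32154, 31254)| = |Av_n(12354, 21354)|`; with `k = 1`,
`T = {123, 132}`: `|Av_n(21345, 21354)| = |Av_n(12345, 12354)|`.  The reversal takes
`{45123, 45213}` to `{32154, 31254}` and the reverse-complement takes `{12354, 21354}` to
`{21354, 21345}` (`Chain.lean`).
-/

set_option autoImplicit false

namespace Pool.Agent.Results.MP_b2be16_co.WilfEquivalence

/-- The permutation `π` of `{0, …, n-1}` contains the pattern with the one-line notation
`σ(0) σ(1) … σ(k-1)`: there are positions `f 0 < f 1 < … < f (k-1)` with `π (f a) < π (f b)` if and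
only if `σ a < σ b`, for all `a`, `b`. -/
def Contains {n k : ℕ} (π : Equiv.Perm (Fin n)) (σ : Fin k → ℕ) : Prop :=
  ∃ f : Fin k → Fin n, StrictMono f ∧ ∀ a b, π (f a) < π (f b) ↔ σ a < σ b

/-- Q1, positive answer: for every `n` there are as many permutations of `n` letters that avoid
`45123` and `45213` as permutations that avoid `12345` and `12354`. -/
theorem result (n : ℕ) :
    Nat.card {π : Equiv.Perm (Fin n) //
      ¬ Contains π ![4, 5, 1, 2, 3] ∧ ¬ Contains π ![4, 5, 2, 1, 3]} =
    Nat.card {π : Equiv.Perm (Fin n) //
      ¬ Contains π ![1, 2, 3, 4, 5] ∧ ¬ Contains π ![1, 2, 3, 5, 4]} :=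
  K4H30.SW.main_nat n

end Pool.Agent.Results.MP_b2be16_co.WilfEquivalence
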